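import Pool.Agent.Y304.CB.Loc

/-!
# The potential of the ring near `χ = i y₀` (task CB3-E-POTY)
-/

set_option autoImplicit false

namespace Pool.Agent.Y304.CB

open Finset Filter Topology Metric
open Pool.Agent.W711.HT
open Pool.Agent.Y472
open Pool.Agent.Y837.CB
open scoped Real

/-! ### The logarithm -/

/-- the quotient under the logarithm is not in the cut -/
def Good (u z : ℂ) : Prop := Complex.cos ((u + z) / 2) ≠ 0 ∧
  Complex.cos ((u - z) / 2) / Complex.cos ((u + z) / 2) ∈ Complex.slitPlane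

lemma good_ev {X : Type*} [TopologicalSpace X] {x₀ : X} {u z : X → ℂ} (hu : ContinuousAt u x₀)
    (hz : ContinuousAt z x₀) (h : Good (u x₀) (z x₀)) : ∀ᶠ x in 𝓝 x₀, Good (u x) (z x) := by
  have c1 : ContinuousAt (fun x => Complex.cos ((u x + z x) / 2)) x₀ :=
    Complex.continuous_cos.continuousAt.comp ((hu.add hz).div_const 2)
  have c2 : ContinuousAt (fun x => Complex.cos ((u x - z x) / 2)) x₀ :=
    Complex.continuous_cos.continuousAt.comp ((hu.sub hz).div_const 2)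
  have c3 := c2.div₀ c1 h.1
  filter_upwards [c1.eventually_ne h.1,
    c3.eventually_mem (Complex.isOpen_slitPlane.mem_nhds h.2)] with x h1 h2
  exact ⟨h1, h2⟩

lemma Lg_diff {E : Type*} [NormedAddCommGroup E] [NormedSpace ℂ E] {U : Set E} {u z : E → ℂ}
    (hu : DifferentiableOn ℂ u U) (hz : DifferentiableOn ℂ z U)
    (h : ∀ x ∈ U, Good (u x) (z x)) : DifferentiableOn ℂ (fun x => Lg (u x) (z x)) U := by
  unfold Lg
  apply DifferentiableOn.clog
  · have d1 : DifferentiableOn ℂ (fun x => Complex.cos ((u x - z x) / 2)) U := by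
      have h5 : DifferentiableOn ℂ (fun x => (u x - z x) * (2 : ℂ)⁻¹) U :=
        (hu.fun_sub hz).mul_const _
      exact h5.ccos.congr fun x _ => by rw [div_eq_mul_inv]
    have d2 : DifferentiableOn ℂ (fun x => Complex.cos ((u x + z x) / 2)) U := by
      have h5 : DifferentiableOn ℂ (fun x => (u x + z x) * (2 : ℂ)⁻¹) U :=
        (hu.fun_add hz).mul_const _
      exact h5.ccos.congr fun x _ => by rw [div_eq_mul_inv]
    have d3 : DifferentiableOn ℂ (fun x => (Complex.cos ((u x + z x) / 2))⁻¹) U :=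
      d2.inv fun x hx => (h x hx).1
    exact (d1.mul d3).congr fun x _ => div_eq_mul_inv _ _
  · intro x hx
    exact (h x hx).2

lemma conj_div_mem {D : ℂ} (hD : 0 < D.re) :
    (starRingEnd ℂ) D / D ∈ Complex.slitPlane := by
  have hD0 : D ≠ 0 := by
    rintro rfl
    simp at hD
  rw [Complex.mem_slitPlane_iff]
  by_cases h : D.im = 0
  · left
    have e : (starRingEnd ℂ) D = D := Complex.conj_eq_iff_im.2 h
    rw [e, div_self hD0]
    simp
  · right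
    have hn : 0 < Complex.normSq D := Complex.normSq_pos.2 hD0
    rw [Complex.div_im, Complex.conj_im, Complex.conj_re, ← sub_div]
    apply div_ne_zero _ hn.ne'
    have : -D.im * D.re - D.re * D.im = -2 * (D.re * D.im) := by ring
    rw [this]
    exact mul_ne_zero (by norm_num) (mul_ne_zero hD.ne' h)

lemma cos_re (x y : ℝ) : (Complex.cos (x + y * Complex.I)).re = Real.cos x * Real.cosh y := by
  rw [Complex.cos_add_mul_I, ← Complex.ofReal_cos, ← Complex.ofReal_cosh, ← Complex.ofReal_sin,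
    ← Complex.ofReal_sinh]
  simp only [Complex.sub_re, Complex.mul_re, Complex.ofReal_re, Complex.ofReal_im, Complex.I_re,
    Complex.I_im, Complex.mul_im]
  ring

/-- the point on the imaginary axis is good -/
lemma good_I {v y : ℝ} (hv : -π < v) (hv' : v < π) : Good (v : ℂ) (y * Complex.I) := by
  have e1 : ((v : ℂ) + y * Complex.I) / 2 = ((v / 2 : ℝ) : ℂ) + ((y / 2 : ℝ) : ℂ) * Complex.I := by
    push_cast; ring
  have e2 : ((v : ℂ) - y * Complex.I) / 2 =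
      (starRingEnd ℂ) (((v / 2 : ℝ) : ℂ) + ((y / 2 : ℝ) : ℂ) * Complex.I) := by
    simp only [map_add, map_mul, Complex.conj_ofReal, Complex.conj_I]
    push_cast; ring
  have hre : 0 < (Complex.cos (((v / 2 : ℝ) : ℂ) + ((y / 2 : ℝ) : ℂ) * Complex.I)).re := by
    rw [cos_re]
    apply mul_pos _ (Real.cosh_pos _)
    apply Real.cos_pos_of_mem_Ioo
    constructor <;> linarith
  refine ⟨?_, ?_⟩
  · rw [e1]
    intro h
    rw [h] at hre
    simp at hre
  · rw [e1, e2, Complex.cos_conj]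
    exact conj_div_mem hre

lemma dY_bd {y : ℝ} (hy : 0 < y) : 0 < 2 * π * dY y ∧ 2 * π * dY y < π := by
  have hc : 1 < Real.cosh y := Real.one_lt_cosh.2 hy.ne'
  have e : 2 * π * dY y = Real.arccos ((Real.cosh y - 1) / (3 + Real.cosh y)) := by
    unfold dY
    field_simp
  rw [e]
  have h1 : 0 < (Real.cosh y - 1) / (3 + Real.cosh y) := by
    apply div_pos <;> linarith
  have h2 : (Real.cosh y - 1) / (3 + Real.cosh y) < 1 := by
    rw [div_lt_one (by linarith)]; linarith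
  constructor
  · rw [Real.arccos_pos]; exact h2
  · have := Real.arccos_lt_pi_div_two.2 h1
    linarith [Real.pi_pos]

/-! ### The kernel -/

section ker

variable {y₀ ρ₀ c C : ℝ} {s dl : ℂ → ℂ → ℂ → ℂ}

/-- derivative in the first variable -/
noncomputable def Q1 (y₀ : ℝ) (dl : ℂ → ℂ → ℂ → ℂ) (a b χ : ℂ) : ℂ :=
  -(1 / (2 * π)) * Lg (2 * π * dl a b (χ + y₀ * Complex.I)) a

/-- derivative in the last variable -/
noncomputable def Q3 (y₀ : ℝ) (dl : ℂ → ℂ → ℂ → ℂ) (a b χ : ℂ) : ℂ :=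
  -(1 / (2 * π)) * Lg (π - 2 * π * dl a b (χ + y₀ * Complex.I)) (χ + y₀ * Complex.I)

lemma shift_mem {χ : ℂ} (h : χ ∈ Rc ρ₀ ρ₀) : χ + y₀ * Complex.I ∈ Rd y₀ ρ₀ := by
  show χ + y₀ * Complex.I - y₀ * Complex.I ∈ Rc ρ₀ ρ₀
  rwa [add_sub_cancel_right]

lemma shift_diff {q : ℂ → ℂ → ℂ → ℂ}
    (hq : DifferentiableOn ℂ (fun p : ℂ × ℂ × ℂ => q p.1 p.2.1 p.2.2)
      (Rc ρ₀ ρ₀ ×ˢ Rc ρ₀ ρ₀ ×ˢ Rd y₀ ρ₀)) :
    DifferentiableOn ℂ (fun p : ℂ × ℂ × ℂ => q p.1 p.2.1 (p.2.2 + y₀ * Complex.I))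
      (Rc ρ₀ ρ₀ ×ˢ Rc ρ₀ ρ₀ ×ˢ Rc ρ₀ ρ₀) := by
  have hm : DifferentiableOn ℂ (fun p : ℂ × ℂ × ℂ => (p.1, p.2.1, p.2.2 + y₀ * Complex.I))
      (Rc ρ₀ ρ₀ ×ˢ Rc ρ₀ ρ₀ ×ˢ Rc ρ₀ ρ₀) := by fun_prop
  exact hq.comp hm fun p hp => ⟨hp.1, hp.2.1, shift_mem hp.2.2⟩

lemma toLoc (h : SDY y₀ ρ₀ c C s dl) : Loc ρ₀ c C (shf y₀ s) (Q1 y₀ dl) (Q3 y₀ dl) where
  hρ := h.hρ
  hc := h.hc
  hC := h.hC
  san := shift_diff h.san
  sbd := fun a ha b hb χ hχ => h.sbd a ha b hb _ (shift_mem hχ)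
  sym := fun a ha b hb χ hχ => h.sym a ha b hb _ (shift_mem hχ)
  ev := fun a ha b hb χ hχ => h.ev a ha b hb _ (shift_mem hχ)
  conc := by
    intro a ha b hb χ hχ
    have h1 := h.conc a ha b hb _ (shift_mem hχ)
    refine ⟨h1.1, ?_⟩
    have e : (deriv fun z => shf y₀ s a b z) =
        fun z => deriv (fun z => s a b z) (z + y₀ * Complex.I) := by
      funext z
      exact deriv_comp_add_const (f := fun z => s a b z) _ _
    rw [e, deriv_comp_add_const (f := deriv fun z => s a b z)]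
    exact h1.2
  d1 := fun a ha b hb χ hχ => h.sder a ha b hb _ (shift_mem hχ)
  d3 := fun a ha b hb χ hχ => (h.sderc a ha b hb _ (shift_mem hχ)).comp_add_const _ _

lemma isOpen_box (ρ : ℝ) : IsOpen (Rc ρ ρ ×ˢ Rc ρ ρ ×ˢ Rc ρ ρ : Set (ℂ × ℂ × ℂ)) :=
  (isOpen_Rc ρ ρ).prod ((isOpen_Rc ρ ρ).prod (isOpen_Rc ρ ρ))

lemma zero_mem_Rc {ρ : ℝ} (hρ : 0 < ρ) : (0 : ℂ) ∈ Rc ρ ρ := by
  constructor <;> simpa using hρ

theorem poty : Pool.Agent.Y472.S_POTY := by
  intro y₀ ρ₀ c C s dl hy0 hy1 hE h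
  have hL := toLoc h
  have hbet := Pool.Agent.Y481.bet_pos
  have hρ := h.hρ.1
  have h0 : ((0 : ℂ), (0 : ℂ), (0 : ℂ)) ∈ (Rc ρ₀ ρ₀ ×ˢ Rc ρ₀ ρ₀ ×ˢ Rc ρ₀ ρ₀ : Set (ℂ × ℂ × ℂ)) :=
    ⟨zero_mem_Rc hρ, zero_mem_Rc hρ, zero_mem_Rc hρ⟩
  have hnh := (isOpen_box ρ₀).mem_nhds h0
  have cs : ContinuousAt (fun p : ℂ × ℂ × ℂ => s p.1 p.2.1 (p.2.2 + y₀ * Complex.I)) (0, 0, 0) :=
    ((shift_diff h.san).differentiableAt hnh).continuousAt
  have cd : ContinuousAt (fun p : ℂ × ℂ × ℂ => dl p.1 p.2.1 (p.2.2 + y₀ * Complex.I)) (0, 0, 0) :=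
    ((shift_diff h.dan).differentiableAt hnh).continuousAt
  have dY0 := dY_bd hy0
  have e0 : dl 0 0 (0 + y₀ * Complex.I) = ((dY y₀ : ℝ) : ℂ) := by rw [zero_add, h.dl0]
  -- the three conditions near the origin
  have n1 : ∀ᶠ p : ℂ × ℂ × ℂ in 𝓝 (0, 0, 0),
      bet < (s p.1 p.2.1 (p.2.2 + y₀ * Complex.I)).re := by
    apply (Complex.continuous_re.continuousAt.comp cs).eventually (lt_mem_nhds _)
    simp only [Function.comp]
    rw [zero_add, h.zero, Complex.ofReal_re]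
    linarith
  have n2 : ∀ᶠ p : ℂ × ℂ × ℂ in 𝓝 (0, 0, 0),
      Good (2 * π * dl p.1 p.2.1 (p.2.2 + y₀ * Complex.I)) p.1 := by
    apply good_ev (u := fun p : ℂ × ℂ × ℂ => 2 * π * dl p.1 p.2.1 (p.2.2 + y₀ * Complex.I))
      (z := fun p : ℂ × ℂ × ℂ => p.1) (continuousAt_const.mul cd) continuousAt_fst
    simp only
    rw [e0]
    have := good_I (v := 2 * π * dY y₀) (y := 0) (by linarith [Real.pi_pos]) dY0.2
    push_cast at this
    simpa using this
  have n3 : ∀ᶠ p : ℂ × ℂ × ℂ in 𝓝 (0, 0, 0),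
      Good (π - 2 * π * dl p.1 p.2.1 (p.2.2 + y₀ * Complex.I)) (p.2.2 + y₀ * Complex.I) := by
    apply good_ev (u := fun p : ℂ × ℂ × ℂ => π - 2 * π * dl p.1 p.2.1 (p.2.2 + y₀ * Complex.I))
      (z := fun p : ℂ × ℂ × ℂ => p.2.2 + y₀ * Complex.I)
      (continuousAt_const.sub (continuousAt_const.mul cd)) (by fun_prop)
    simp only
    rw [e0, zero_add]
    have := good_I (v := π - 2 * π * dY y₀) (y := y₀) (by linarith [dY0.2, Real.pi_pos])
      (by linarith)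
    push_cast at this
    exact this
  obtain ⟨r, hr, hball⟩ := Metric.eventually_nhds_iff_ball.1 (n1.and (n2.and n3))
  set R : ℝ := min (ρ₀ / 4) (r / 2) with hR
  have R0 : 0 < R := lt_min (by positivity) (by positivity)
  have R1 : R ≤ ρ₀ / 4 := min_le_left _ _
  have R2 : R ≤ r / 2 := min_le_right _ _
  have key : ∀ a ∈ Rc R R, ∀ b ∈ Rc R R, ∀ χ ∈ Rc R R,
      bet < (s a b (χ + y₀ * Complex.I)).re ∧
      Good (2 * π * dl a b (χ + y₀ * Complex.I)) a ∧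
      Good (π - 2 * π * dl a b (χ + y₀ * Complex.I)) (χ + y₀ * Complex.I) := by
    intro a ha b hb χ hχ
    have na := Rc_norm ha
    have nb := Rc_norm hb
    have nc := Rc_norm hχ
    have := hball (a, b, χ) (by
      rw [mem_ball, dist_eq_norm]
      show ‖((a, b, χ) : ℂ × ℂ × ℂ) - ((0 : ℂ), (0 : ℂ), (0 : ℂ))‖ < r
      rw [Prod.mk_sub_mk, Prod.mk_sub_mk, sub_zero, sub_zero, sub_zero, Prod.norm_mk, Prod.norm_mk]
      exact max_lt (by linarith) (max_lt (by linarith) (by linarith)))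
    exact this
  have hmono : (Rc R R ×ˢ Rc R R ×ˢ Rc R R : Set (ℂ × ℂ × ℂ)) ⊆
      (Rc ρ₀ ρ₀ ×ˢ Rc ρ₀ ρ₀ ×ˢ Rc ρ₀ ρ₀) := fun p hp =>
    ⟨Rc_mono (by linarith) hp.1, Rc_mono (by linarith) hp.2.1, Rc_mono (by linarith) hp.2.2⟩
  have hdl := (shift_diff h.dan).mono hmono
  refine ⟨R, c, R0, by linarith, h.hc, fun n hn => ?_⟩
  have hn0 : (0:ℝ) < n := by exact_mod_cast (by omega : 0 < n)
  have hC := h.hC
  refine ⟨n * C + n * C / (ρ₀ / 4), by positivity, potE hL R0 R1 hbet ?_ ?_ ?_ hn⟩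
  · unfold Q1
    apply DifferentiableOn.const_mul
    exact Lg_diff (hdl.const_mul _) differentiableOn_fst fun p hp =>
      (key _ hp.1 _ hp.2.1 _ hp.2.2).2.1
  · unfold Q3
    apply DifferentiableOn.const_mul
    exact Lg_diff ((hdl.const_mul _).const_sub _) (by fun_prop) fun p hp =>
      (key _ hp.1 _ hp.2.1 _ hp.2.2).2.2
  · intro a ha b hb χ hχ
    exact (key a ha b hb χ hχ).1.le

end ker

end Pool.Agent.Y304.CB
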