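import Pool.Agent.Y472.E.Defs
import Pool.Agent.Y837.CB.Pot

/-!
# The potential of the ring for a general kernel, even in the first variables (task CB3-E-POTY)
-/

set_option autoImplicit false

namespace Pool.Agent.Y304.CB

open Finset Filter Topology Metric
open Pool.Agent.W711.HT
open Pool.Agent.Y472
open Pool.Agent.Y837.CB
open scoped Real

/-- a kernel near the origin, with its partial derivatives -/
structure Loc (ρ c C : ℝ) (s q1 q3 : ℂ → ℂ → ℂ → ℂ) : Prop where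
  hρ : 0 < ρ ∧ ρ ≤ 1
  hc : 0 < c
  hC : 0 < C
  san : DifferentiableOn ℂ (fun p : ℂ × ℂ × ℂ => s p.1 p.2.1 p.2.2)
    (Rc ρ ρ ×ˢ Rc ρ ρ ×ˢ Rc ρ ρ)
  sbd : ∀ a ∈ Rc ρ ρ, ∀ b ∈ Rc ρ ρ, ∀ χ ∈ Rc ρ ρ, ‖s a b χ‖ ≤ C
  sym : ∀ a ∈ Rc ρ ρ, ∀ b ∈ Rc ρ ρ, ∀ χ ∈ Rc ρ ρ, s a b χ = s b a χ
  ev : ∀ a ∈ Rc ρ ρ, ∀ b ∈ Rc ρ ρ, ∀ χ ∈ Rc ρ ρ, s (-a) b χ = s a b χ
  conc : ∀ a ∈ Rc ρ ρ, ∀ b ∈ Rc ρ ρ, ∀ χ ∈ Rc ρ ρ,
    (deriv (deriv fun z => s z b χ) a).re ≤ -c ∧ (deriv (deriv fun z => s a b z) χ).re ≤ -c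
  d1 : ∀ a ∈ Rc ρ ρ, ∀ b ∈ Rc ρ ρ, ∀ χ ∈ Rc ρ ρ, HasDerivAt (fun z => s z b χ) (q1 a b χ) a
  d3 : ∀ a ∈ Rc ρ ρ, ∀ b ∈ Rc ρ ρ, ∀ χ ∈ Rc ρ ρ, HasDerivAt (fun z => s a b z) (q3 a b χ) χ

/-- the derivative of the term number `i` in the variable number `j` -/
noncomputable def dq (q1 q3 : ℂ → ℂ → ℂ → ℂ) (n j i : ℕ) (ψ : ℕ → ℂ) : ℂ :=
  if j = n then q3 (ψ i) (ψ ((i + 1) % n)) (ψ n)
  else if j = i then q1 (ψ i) (ψ ((i + 1) % n)) (ψ n)
  else if j = (i + 1) % n then q1 (ψ ((i + 1) % n)) (ψ i) (ψ n)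
  else 0

section loc

variable {ρ c C : ℝ} {s q1 q3 : ℂ → ℂ → ℂ → ℂ}

lemma d2L (h : Loc ρ c C s q1 q3) {a b χ : ℂ} (ha : a ∈ Rc ρ ρ) (hb : b ∈ Rc ρ ρ)
    (hχ : χ ∈ Rc ρ ρ) : HasDerivAt (fun v => s a v χ) (q1 b a χ) b := by
  refine (h.d1 b hb a ha χ hχ).congr_of_eventuallyEq ?_
  filter_upwards [(isOpen_Rc ρ ρ).mem_nhds hb] with v hv
  exact h.sym a ha v hv χ hχ

lemma tm_derL (h : Loc ρ c C s q1 q3) {n i j : ℕ} (hn : 2 ≤ n) (hi : i < n) (hj : j ≤ n)
    {ψ : ℕ → ℂ} (hψ : ψ ∈ Bx (n + 1) ρ) : HasDerivAt (tm s n j i ψ) (dq q1 q3 n j i ψ) (ψ j) := by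
  have h1 : (i + 1) % n < n := Nat.mod_lt _ (by omega)
  have m1 := hψ i (by omega)
  have m2 := hψ ((i + 1) % n) (by omega)
  have m3 := hψ n (by omega)
  have h2 := succ_mod_ne hn hi
  by_cases e1 : j = n
  · subst e1
    rw [tm_A s hn hi, dq, if_pos rfl]
    exact h.d3 _ m1 _ m2 _ m3
  · by_cases e2 : j = i
    · subst e2
      rw [tm_B s hn hi, dq, if_neg e1, if_pos rfl]
      exact h.d1 _ m1 _ m2 _ m3
    · by_cases e3 : j = (i + 1) % n
      · subst e3
        rw [tm_C s hn hi, dq, if_neg e1, if_neg e2, if_pos rfl]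
        exact d2L h m1 m2 m3
      · rw [tm_D s e1 e2 e3, dq, if_neg e1, if_neg e2, if_neg e3]
        exact hasDerivAt_const _ _

lemma tm_concL (h : Loc ρ c C s q1 q3) {n i j : ℕ} (hn : 2 ≤ n) (hi : i < n) (hj : j ≤ n)
    {ψ : ℕ → ℂ} (hψ : ψ ∈ Bx (n + 1) ρ) :
    (deriv (deriv (tm s n j i ψ)) (ψ j)).re ≤ if j = n ∨ j = i then -c else 0 := by
  have h1 : (i + 1) % n < n := Nat.mod_lt _ (by omega)
  have m1 := hψ i (by omega)
  have m2 := hψ ((i + 1) % n) (by omega)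
  have m3 := hψ n (by omega)
  have h2 := succ_mod_ne hn hi
  have hc := h.hc
  by_cases e1 : j = n
  · subst e1
    rw [tm_A s hn hi, if_pos (Or.inl rfl)]
    exact (h.conc _ m1 _ m2 _ m3).2
  · by_cases e2 : j = i
    · subst e2
      rw [tm_B s hn hi, if_pos (Or.inr rfl)]
      exact (h.conc _ m1 _ m2 _ m3).1
    · rw [if_neg (by tauto)]
      by_cases e3 : j = (i + 1) % n
      · subst e3
        rw [tm_C s hn hi]
        have e : (fun v => s (ψ i) v (ψ n)) =ᶠ[𝓝 (ψ ((i + 1) % n))] fun v => s v (ψ i) (ψ n) := by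
          filter_upwards [(isOpen_Rc ρ ρ).mem_nhds m2] with v hv
          exact h.sym _ m1 v hv _ m3
        rw [e.deriv.deriv_eq]
        have := (h.conc _ m2 _ m1 _ m3).1
        linarith
      · rw [tm_D s e1 e2 e3]
        simp

lemma ev3L (h : Loc ρ c C s q1 q3) {a b χ a' b' : ℂ} (ha : a ∈ Rc ρ ρ) (hb : b ∈ Rc ρ ρ)
    (hχ : χ ∈ Rc ρ ρ) (h1 : a' = a ∨ a' = -a) (h2 : b' = b ∨ b' = -b) :
    s a' b' χ = s a b χ := by
  have mb' : b' ∈ Rc ρ ρ := by rcases h2 with e | e <;> rw [e]; exacts [hb, Rc_neg hb]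
  have e1 : s a' b' χ = s a b' χ := by
    rcases h1 with e | e <;> rw [e]
    exact h.ev _ ha _ mb' _ hχ
  have e2 : s a b' χ = s a b χ := by
    rcases h2 with e | e <;> rw [e]
    rw [h.sym _ ha _ (Rc_neg hb) _ hχ, h.ev _ hb _ ha _ hχ, h.sym _ hb _ ha _ hχ]
  rw [e1, e2]

lemma tm_derL' (h : Loc ρ c C s q1 q3) {n i j : ℕ} (hn : 2 ≤ n) (hi : i < n) (hj : j ≤ n)
    {ψ : ℕ → ℂ} (hψ : ψ ∈ Bx (n + 1) ρ) {w : ℂ} (hw : w ∈ Rc ρ ρ) :
    HasDerivAt (tm s n j i ψ) (dq q1 q3 n j i (Function.update ψ j w)) w := by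
  have := tm_derL h hn hi hj (update_mem hψ hw (j := j))
  rwa [tm_update, Function.update_self] at this

lemma Sr_derL (h : Loc ρ c C s q1 q3) {n j : ℕ} (hn : 2 ≤ n) (hj : j ≤ n)
    {ψ : ℕ → ℂ} (hψ : ψ ∈ Bx (n + 1) ρ) {w : ℂ} (hw : w ∈ Rc ρ ρ) :
    HasDerivAt (fun w => Sr s n (Function.update ψ j w))
      (∑ i ∈ range n, dq q1 q3 n j i (Function.update ψ j w)) w := by
  rw [Sr_update]
  exact HasDerivAt.fun_sum fun i hi => tm_derL' h hn (mem_range.1 hi) hj hψ hw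

lemma Dr_eqL (h : Loc ρ c C s q1 q3) {n j : ℕ} (hn : 2 ≤ n) (hj : j ≤ n)
    {ψ : ℕ → ℂ} (hψ : ψ ∈ Bx (n + 1) ρ) : Dr s n j ψ = ∑ i ∈ range n, dq q1 q3 n j i ψ := by
  have := (Sr_derL h hn hj hψ (hψ j (by omega))).deriv
  rw [Function.update_eq_self] at this
  exact this

lemma Sr_bdL (h : Loc ρ c C s q1 q3) {n : ℕ} {ψ : ℕ → ℂ} (hψ : ψ ∈ Bx (n + 1) ρ) :
    ‖Sr s n ψ‖ ≤ n * C := by
  unfold Sr
  refine (norm_sum_le _ _).trans ?_
  have : ∀ i ∈ range n, ‖s (ψ i) (ψ ((i + 1) % n)) (ψ n)‖ ≤ C := by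
    intro i hi
    have hi' := mem_range.1 hi
    have h1 : (i + 1) % n < n := Nat.mod_lt _ (by omega)
    exact h.sbd _ (hψ i (by omega)) _ (hψ _ (by omega)) _ (hψ n (by omega))
  refine (sum_le_sum this).trans ?_
  simp

lemma sd_concL (h : Loc ρ c C s q1 q3) {n j : ℕ} (hn : 2 ≤ n) (hj : j ≤ n)
    {ψ : ℕ → ℂ} (hψ : ψ ∈ Bx (n + 1) ρ) :
    (deriv (fun w => Dr s n j (Function.update ψ j w)) (ψ j)).re ≤ -c := by
  have hψj := hψ j (by omega)
  have e0 : (fun w => Dr s n j (Function.update ψ j w)) =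
      deriv (fun w => Sr s n (Function.update ψ j w)) := by
    funext w
    simp only [Dr, Function.update_idem, Function.update_self]
  have e1 : deriv (fun w => Sr s n (Function.update ψ j w)) =ᶠ[𝓝 (ψ j)]
      fun w => ∑ i ∈ range n, deriv (tm s n j i ψ) w := by
    filter_upwards [(isOpen_Rc ρ ρ).mem_nhds hψj] with w hw
    rw [(Sr_derL h hn hj hψ hw).deriv]
    exact sum_congr rfl fun i hi => (tm_derL' h hn (mem_range.1 hi) hj hψ hw).deriv.symm
  have e2 : ∀ i ∈ range n, DifferentiableAt ℂ (deriv (tm s n j i ψ)) (ψ j) := by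
    intro i hi
    have hd : DifferentiableOn ℂ (tm s n j i ψ) (Rc ρ ρ) := fun w hw =>
      (tm_derL' h hn (mem_range.1 hi) hj hψ hw).differentiableAt.differentiableWithinAt
    exact (hd.deriv (isOpen_Rc ρ ρ)).differentiableAt ((isOpen_Rc ρ ρ).mem_nhds hψj)
  rw [e0, e1.deriv_eq, deriv_fun_sum e2, Complex.re_sum]
  have e3 : ∀ i ∈ range n, (deriv (deriv (tm s n j i ψ)) (ψ j)).re ≤
      if j = n ∨ j = i then -c else 0 := fun i hi => tm_concL h hn (mem_range.1 hi) hj hψ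
  refine (sum_le_sum e3).trans ?_
  have hc := h.hc
  have hcase : ∃ i₀ ∈ range n, j = n ∨ j = i₀ := by
    rcases Nat.lt_or_ge j n with h1 | h1
    · exact ⟨j, mem_range.2 h1, Or.inr rfl⟩
    · exact ⟨0, mem_range.2 (by omega), Or.inl (by omega)⟩
  obtain ⟨i₀, hi₀, hcond⟩ := hcase
  rw [← add_sum_erase _ _ hi₀, if_pos hcond]
  have : ∑ x ∈ (range n).erase i₀, (if j = n ∨ j = x then -c else 0) ≤ 0 := by
    apply sum_nonpos
    intro x _
    split_ifs <;> linarith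
  linarith

/-- the ring has a potential, even in the first `n` variables -/
theorem potE (h : Loc ρ c C s q1 q3) {R : ℝ} (R0 : 0 < R) (R1 : R ≤ ρ / 4) (hbet : 0 < bet)
    (a1 : DifferentiableOn ℂ (fun p : ℂ × ℂ × ℂ => q1 p.1 p.2.1 p.2.2)
      (Rc R R ×ˢ Rc R R ×ˢ Rc R R))
    (a3 : DifferentiableOn ℂ (fun p : ℂ × ℂ × ℂ => q3 p.1 p.2.1 p.2.2)
      (Rc R R ×ˢ Rc R R ×ˢ Rc R R))
    (low : ∀ a ∈ Rc R R, ∀ b ∈ Rc R R, ∀ χ ∈ Rc R R, bet ≤ (s a b χ).re)
    {n : ℕ} (hn : 2 ≤ n) :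
    PotE (n + 1) n R c (n * C + n * C / (ρ / 4)) bet (Sr s n) (Dr s n) := by
  have hC := h.hC
  have hρ := h.hρ.1
  have hρ1 := h.hρ.2
  have hsub : ∀ {z : ℂ}, z ∈ Rc R R → z ∈ Rc ρ ρ := fun hz => Rc_mono (by linarith) hz
  have hsubB : ∀ {ψ : ℕ → ℂ}, ψ ∈ Bx (n + 1) R → ψ ∈ Bx (n + 1) ρ :=
    fun hψ i hi => hsub (hψ i hi)
  have hn0 : (0:ℝ) < n := by exact_mod_cast (by omega : 0 < n)
  have hex : ∀ (i : ℕ), DifferentiableOn ℂ (fun x : Fin (n + 1) → ℂ => ex (n + 1) x i)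
      (bx (n + 1) R) := by
    intro i
    unfold ex
    by_cases hi : i < n + 1
    · simp only [hi, dite_true]
      fun_prop
    · simp only [hi, dite_false]
      fun_prop
  have mex : ∀ {i : ℕ}, i < n + 1 → ∀ x ∈ bx (n + 1) R, ex (n + 1) x i ∈ Rc R R := by
    intro i hi x hx
    simp only [ex, hi, dite_true]
    exact hx ⟨i, hi⟩
  have mexB : ∀ x ∈ bx (n + 1) R, ex (n + 1) x ∈ Bx (n + 1) R := fun x hx i hi => mex hi x hx
  -- composition with three coordinates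
  have hcomp : ∀ {q : ℂ → ℂ → ℂ → ℂ}, DifferentiableOn ℂ (fun p : ℂ × ℂ × ℂ => q p.1 p.2.1 p.2.2)
      (Rc R R ×ˢ Rc R R ×ˢ Rc R R) → ∀ {a b d : ℕ}, a < n + 1 → b < n + 1 → d < n + 1 →
      DifferentiableOn ℂ (fun x : Fin (n + 1) → ℂ => q (ex (n + 1) x a) (ex (n + 1) x b)
        (ex (n + 1) x d)) (bx (n + 1) R) := by
    intro q hq a b d ha hb hd
    exact hq.comp (f := fun x : Fin (n + 1) → ℂ => (ex (n + 1) x a, ex (n + 1) x b,
      ex (n + 1) x d)) ((hex a).prodMk ((hex b).prodMk (hex d)))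
      (fun x hx => ⟨mex ha x hx, mex hb x hx, mex hd x hx⟩)
  have san' : DifferentiableOn ℂ (fun p : ℂ × ℂ × ℂ => s p.1 p.2.1 p.2.2)
      (Rc R R ×ˢ Rc R R ×ˢ Rc R R) :=
    h.san.mono fun p hp => ⟨hsub hp.1, hsub hp.2.1, hsub hp.2.2⟩
  refine
    { he := by omega
      hR := ⟨R0, by linarith⟩
      hc := h.hc
      hB := by positivity
      hp := hbet
      dep := ?_
      an := ?_
      dan := ?_
      der := ?_
      bd := ?_
      ev := ?_
      conc := ?_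
      pos := ?_ }
  · -- dep
    intro ψ ψ' he
    refine ⟨Sr_congr s he, fun j => ?_⟩
    unfold Dr
    by_cases hj : j < n + 1
    · rw [he j hj]
      congr 1
      funext w
      apply Sr_congr
      intro i hi
      by_cases e : i = j
      · subst e; rw [Function.update_self, Function.update_self]
      · rw [Function.update_of_ne e, Function.update_of_ne e, he i hi]
    · have e1 : ∀ φ : ℕ → ℂ, (fun w => Sr s n (Function.update φ j w)) = fun _ => Sr s n φ := by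
        intro φ
        funext w
        apply Sr_congr
        intro i hi
        rw [Function.update_of_ne (by omega)]
      rw [e1, e1]
      simp
  · -- an
    unfold Sr
    apply DifferentiableOn.fun_sum
    intro i hi
    have hi' := mem_range.1 hi
    have h1 : (i + 1) % n < n := Nat.mod_lt _ (by omega)
    exact hcomp san' (by omega) (by omega) (by omega)
  · -- dan
    intro j hj
    have e : ∀ x ∈ bx (n + 1) R, Dr s n j (ex (n + 1) x) =
        ∑ i ∈ range n, dq q1 q3 n j i (ex (n + 1) x) := fun x hx =>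
      Dr_eqL h hn (by omega) (hsubB (mexB x hx))
    refine DifferentiableOn.congr ?_ e
    apply DifferentiableOn.fun_sum
    intro i hi
    have hi' := mem_range.1 hi
    have h1 : (i + 1) % n < n := Nat.mod_lt _ (by omega)
    by_cases e1 : j = n
    · refine (hcomp a3 (a := i) (b := (i + 1) % n) (d := n) (by omega) (by omega)
        (by omega)).congr fun x _ => ?_
      rw [dq, if_pos e1]
    · by_cases e2 : j = i
      · refine (hcomp a1 (a := i) (b := (i + 1) % n) (d := n) (by omega) (by omega)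
          (by omega)).congr fun x _ => ?_
        rw [dq, if_neg e1, if_pos e2]
      · by_cases e3 : j = (i + 1) % n
        · refine (hcomp a1 (a := (i + 1) % n) (b := i) (d := n) (by omega) (by omega)
            (by omega)).congr fun x _ => ?_
          rw [dq, if_neg e1, if_neg e2, if_pos e3]
        · refine (differentiableOn_const (0 : ℂ)).congr fun x _ => ?_
          rw [dq, if_neg e1, if_neg e2, if_neg e3]
  · -- der
    intro ψ hψ j hj
    have := Sr_derL h hn (by omega : j ≤ n) (hsubB hψ) (hsub (hψ j hj))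
    rw [Function.update_eq_self] at this
    rw [Dr_eqL h hn (by omega) (hsubB hψ)]
    exact this
  · -- bd
    intro ψ hψ
    have b1 := Sr_bdL h (hsubB hψ)
    have b2 : 0 ≤ (n:ℝ) * C / (ρ / 4) := by positivity
    refine ⟨by linarith, fun j hj => ?_⟩
    have hball : ∀ w ∈ closedBall (ψ j) (ρ / 4), w ∈ Rc ρ ρ := by
      intro w hw
      have hw' : ‖w - ψ j‖ ≤ ρ / 4 := by simpa [dist_eq_norm] using hw
      exact Rc_mono (by linarith) (Rc_add (hψ j hj) hw')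
    have hd : ∀ w ∈ closedBall (ψ j) (ρ / 4),
        DifferentiableAt ℂ (fun w => Sr s n (Function.update ψ j w)) w := fun w hw =>
      (Sr_derL h hn (by omega : j ≤ n) (hsubB hψ) (hball w hw)).differentiableAt
    have hdc : DiffContOnCl ℂ (fun w => Sr s n (Function.update ψ j w)) (ball (ψ j) (ρ / 4)) := by
      apply DifferentiableOn.diffContOnCl
      rw [closure_ball _ (by positivity)]
      intro w hw
      exact (hd w hw).differentiableWithinAt
    have key := Complex.norm_deriv_le_of_forall_mem_sphere_norm_le (C := n * C)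
      (by positivity : (0:ℝ) < ρ / 4) hdc (fun w hw => by
        apply Sr_bdL h
        exact update_mem (hsubB hψ) (hball w (sphere_subset_closedBall hw)))
    have b3 : 0 ≤ (n:ℝ) * C := by positivity
    unfold Dr
    linarith
  · -- ev
    intro ψ hψ j hj
    unfold Sr
    refine sum_congr rfl fun i hi => ?_
    have hi' := mem_range.1 hi
    have h1 : (i + 1) % n < n := Nat.mod_lt _ (by omega)
    have hu : ∀ k, Function.update ψ j (-ψ j) k = ψ k ∨ Function.update ψ j (-ψ j) k = -ψ k := by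
      intro k
      by_cases e : k = j
      · subst e; right; rw [Function.update_self]
      · left; rw [Function.update_of_ne e]
    have e3 : Function.update ψ j (-ψ j) n = ψ n := Function.update_of_ne (by omega) _ _
    rw [e3]
    exact ev3L h (hsub (hψ _ (by omega))) (hsub (hψ _ (by omega))) (hsub (hψ _ (by omega)))
      (hu _) (hu _)
  · -- conc
    intro ψ hψ j hj
    exact sd_concL h hn (by omega) (hsubB hψ)
  · -- pos
    intro ψ hψ
    have term : ∀ i ∈ range n, bet ≤ (s (ψ i) (ψ ((i + 1) % n)) (ψ n)).re := by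
      intro i hi
      have hi' := mem_range.1 hi
      have h1 : (i + 1) % n < n := Nat.mod_lt _ (by omega)
      exact low _ (hψ i (by omega)) _ (hψ ((i + 1) % n) (by omega)) _ (hψ n (by omega))
    unfold Sr
    rw [Complex.re_sum]
    have := sum_le_sum term
    rw [sum_const, card_range, nsmul_eq_mul] at this
    have hn1 : (1:ℝ) ≤ n := by exact_mod_cast (by omega : 1 ≤ n)
    nlinarith

end loc

end Pool.Agent.Y304.CB
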