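import Pool.Agent.Y472.D.Defs
import Pool.Agent.Y837.CB.Pot

/-!
# The potential of the ring: second derivative in the variable of the axis (task CB3-D-POTN)
-/

set_option autoImplicit false

namespace Pool.Agent.Y304.CB

open Finset Filter Topology Metric
open Pool.Agent.W711.HT
open Pool.Agent.Y472
open Pool.Agent.Y837.CB
open scoped Real

lemma Pot_mono {L : ℕ} {R R' c B p₀ : ℝ} {S : (ℕ → ℂ) → ℂ} {D : ℕ → (ℕ → ℂ) → ℂ}
    (h : Pot L R c B p₀ S D) (h0 : 0 < R') (h1 : R' ≤ R) : Pot L R' c B p₀ S D := by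
  have hs : ∀ {ψ : ℕ → ℂ}, ψ ∈ Bx L R' → ψ ∈ Bx L R := fun hψ i hi => Rc_mono h1 (hψ i hi)
  have hs' : bx L R' ⊆ bx L R := fun x hx i => Rc_mono h1 (hx i)
  exact
    { hR := ⟨h0, h1.trans h.hR.2⟩
      hc := h.hc
      hB := h.hB
      hp := h.hp
      dep := h.dep
      an := h.an.mono hs'
      dan := fun j hj => (h.dan j hj).mono hs'
      der := fun ψ hψ => h.der ψ (hs hψ)
      bd := fun ψ hψ => h.bd ψ (hs hψ)
      ev := fun ψ hψ => h.ev ψ (hs hψ)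
      conc := fun ψ hψ => h.conc ψ (hs hψ)
      pos := fun ψ hψ => h.pos ψ (hs hψ) }

/-- Cauchy estimate in the rectangle -/
lemma cauchy {f : ℂ → ℂ} {ρ C a r : ℝ} (hf : DifferentiableOn ℂ f (Rc ρ ρ))
    (hb : ∀ z ∈ Rc ρ ρ, ‖f z‖ ≤ C) (hr : 0 < r) (har : a + r ≤ ρ) {w : ℂ} (hw : w ∈ Rc a a) :
    ‖deriv f w‖ ≤ C / r := by
  have hball : ∀ v ∈ closedBall w r, v ∈ Rc ρ ρ := by
    intro v hv
    have hv' : ‖v - w‖ ≤ r := by simpa [dist_eq_norm] using hv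
    exact Rc_mono har (Rc_add hw hv')
  refine Complex.norm_deriv_le_of_forall_mem_sphere_norm_le hr ?_
    (fun z hz => hb z (hball z (sphere_subset_closedBall hz)))
  apply DifferentiableOn.diffContOnCl
  rw [closure_ball _ hr.ne']
  exact hf.mono hball

/-- second derivative -/
lemma cauchy2 {f : ℂ → ℂ} {ρ C a r : ℝ} (hf : DifferentiableOn ℂ f (Rc ρ ρ))
    (hb : ∀ z ∈ Rc ρ ρ, ‖f z‖ ≤ C) (hr : 0 < r) (har : a + r + r ≤ ρ) {w : ℂ} (hw : w ∈ Rc a a) :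
    ‖deriv (deriv f) w‖ ≤ C / r / r := by
  have hd : DifferentiableOn ℂ (deriv f) (Rc (a + r) (a + r)) :=
    (hf.deriv (isOpen_Rc ρ ρ)).mono fun z hz => Rc_mono (by linarith) hz
  exact cauchy hd (fun z hz => cauchy hf hb hr har hz) hr le_rfl hw

section sd

variable {ρ₀ c C : ℝ} {s dl : ℂ → ℂ → ℂ → ℂ}

lemma dd_eq (h : SD3 ρ₀ c C s dl) {n j : ℕ} (hn : 2 ≤ n) (hj : j ≤ n)
    {ψ : ℕ → ℂ} (hψ : ψ ∈ Bx (n + 1) ρ₀) :
    deriv (fun w => Dr s n j (Function.update ψ j w)) (ψ j) =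
      ∑ i ∈ range n, deriv (deriv (tm s n j i ψ)) (ψ j) := by
  have hψj := hψ j (by omega)
  have e0 : (fun w => Dr s n j (Function.update ψ j w)) =
      deriv (fun w => Sr s n (Function.update ψ j w)) := by
    funext w
    simp only [Dr, Function.update_idem, Function.update_self]
  have e1 : deriv (fun w => Sr s n (Function.update ψ j w)) =ᶠ[𝓝 (ψ j)]
      fun w => ∑ i ∈ range n, deriv (tm s n j i ψ) w := by
    filter_upwards [(isOpen_Rc ρ₀ ρ₀).mem_nhds hψj] with w hw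
    rw [(Sr_der h hn hj hψ hw).deriv]
    exact sum_congr rfl fun i hi => (tm_der' h hn (mem_range.1 hi) hj hψ hw).deriv.symm
  have e2 : ∀ i ∈ range n, DifferentiableAt ℂ (deriv (tm s n j i ψ)) (ψ j) := by
    intro i hi
    have hd : DifferentiableOn ℂ (tm s n j i ψ) (Rc ρ₀ ρ₀) := fun w hw =>
      (tm_der' h hn (mem_range.1 hi) hj hψ hw).differentiableAt.differentiableWithinAt
    exact (hd.deriv (isOpen_Rc ρ₀ ρ₀)).differentiableAt ((isOpen_Rc ρ₀ ρ₀).mem_nhds hψj)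
  rw [e0, e1.deriv_eq, deriv_fun_sum e2]

lemma dd_re (h : SD3 ρ₀ c C s dl) {n : ℕ} (hn : 2 ≤ n)
    {ψ : ℕ → ℂ} (hψ : ψ ∈ Bx (n + 1) ρ₀) :
    (deriv (fun w => Dr s n n (Function.update ψ n w)) (ψ n)).re ≤ -(c * n) := by
  rw [dd_eq h hn le_rfl hψ, Complex.re_sum]
  have e3 : ∀ i ∈ range n, (deriv (deriv (tm s n n i ψ)) (ψ n)).re ≤ -c := by
    intro i hi
    have := tm_conc h hn (mem_range.1 hi) le_rfl hψ
    rwa [if_pos (Or.inl rfl)] at this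
  refine (sum_le_sum e3).trans ?_
  rw [sum_const, card_range, nsmul_eq_mul]
  linarith

lemma dd_norm (h : SD3 ρ₀ c C s dl) {n : ℕ} (hn : 2 ≤ n)
    {ψ : ℕ → ℂ} (hψ : ψ ∈ Bx (n + 1) (ρ₀ / 4)) :
    ‖deriv (fun w => Dr s n n (Function.update ψ n w)) (ψ n)‖ ≤ C / (ρ₀ / 4) / (ρ₀ / 4) * n := by
  have hρ := h.hρ.1
  have hψ' : ψ ∈ Bx (n + 1) ρ₀ := fun i hi => Rc_mono (by linarith) (hψ i hi)
  rw [dd_eq h hn le_rfl hψ']
  refine (norm_sum_le _ _).trans ?_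
  have e3 : ∀ i ∈ range n, ‖deriv (deriv (tm s n n i ψ)) (ψ n)‖ ≤ C / (ρ₀ / 4) / (ρ₀ / 4) := by
    intro i hi
    have hi' := mem_range.1 hi
    have h1 : (i + 1) % n < n := Nat.mod_lt _ (by omega)
    have hd : DifferentiableOn ℂ (tm s n n i ψ) (Rc ρ₀ ρ₀) := fun w hw =>
      (tm_der' h hn hi' le_rfl hψ' hw).differentiableAt.differentiableWithinAt
    refine cauchy2 hd ?_ (by positivity) (by linarith) (hψ n (by omega))
    intro z hz
    rw [tm_A s hn hi']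
    exact h.sbd _ (hψ' i (by omega)) _ (hψ' _ (by omega)) _ hz
  refine (sum_le_sum e3).trans ?_
  rw [sum_const, card_range, nsmul_eq_mul]
  linarith

end sd

theorem potn : Pool.Agent.Y472.S_POTN := by
  intro ρ₀ c C s dl h
  obtain ⟨R, c', hR, hRρ, hc', hP⟩ := Pool.Agent.Y837.CB.pot ρ₀ c C s dl h
  have hρ := h.hρ.1
  have hC := h.hC
  have hR0 : 0 < min R (ρ₀ / 4) := lt_min hR (by positivity)
  refine ⟨min R (ρ₀ / 4), c', c, C / (ρ₀ / 4) / (ρ₀ / 4), hR0,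
    (min_le_left _ _).trans hRρ, hc', h.hc, by positivity, fun n hn => ?_⟩
  obtain ⟨B, hB, hPn⟩ := hP n hn
  refine ⟨B, hB, Pot_mono hPn hR0 (min_le_left _ _), fun ψ hψ => ?_⟩
  have hψ4 : ψ ∈ Bx (n + 1) (ρ₀ / 4) := fun i hi => Rc_mono (min_le_right _ _) (hψ i hi)
  have hψ' : ψ ∈ Bx (n + 1) ρ₀ := fun i hi => Rc_mono (by linarith) (hψ4 i hi)
  exact ⟨dd_re h hn hψ', dd_norm h hn hψ4⟩

end Pool.Agent.Y304.CB
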